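import Pool.Agent.Q177.FE.Spec

/-!
# The wavelength capacity of the figure eight
-/

open Set Filter Topology MeasureTheory
open scoped Classical

set_option autoImplicit false

namespace Pool.Agent.Q177.FE

/-- The zeros of `sin (μ x - μ l / 2)` in `(0, l)`. -/
def zs (μ l : ℝ) : Set ℝ := {x | 0 < x ∧ x < l ∧ Real.sin (μ * x - μ * l / 2) = 0}

theorem zs_least {μ l : ℝ} (hμ : 0 < μ) (hl : 0 < l) (hs : Real.sin (μ * l / 2) ≠ 0) :
    IsLeast (zs μ l) (Real.pi * Int.fract (μ * l / 2 / Real.pi) / μ) := by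
  have hp := Real.pi_pos
  set θ := μ * l / 2 with hθ
  have hθ0 : 0 < θ := by positivity
  set q := Int.fract (θ / Real.pi) with hq
  have hq1 : q = θ / Real.pi - ⌊θ / Real.pi⌋ := rfl
  have hq0 : q ≠ 0 := by
    intro h
    apply hs
    rw [hq1, sub_eq_zero] at h
    have : θ = (⌊θ / Real.pi⌋ : ℝ) * Real.pi := by
      rw [← h]
      field_simp
    rw [this]
    exact Real.sin_int_mul_pi _
  have hq2 : 0 < q := lt_of_le_of_ne (Int.fract_nonneg _) (Ne.symm hq0)
  have hfl : (0 : ℝ) ≤ ⌊θ / Real.pi⌋ := by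
    have : 0 ≤ ⌊θ / Real.pi⌋ := Int.floor_nonneg.2 (by positivity)
    exact_mod_cast this
  have hpq : Real.pi * q = θ - ⌊θ / Real.pi⌋ * Real.pi := by
    rw [hq1]
    field_simp
  have hx : μ * (Real.pi * q / μ) = Real.pi * q := by field_simp
  refine ⟨⟨by positivity, ?_, ?_⟩, ?_⟩
  · rw [div_lt_iff₀ hμ, hpq]
    have h1 : l * μ = 2 * θ := by rw [hθ]; ring
    have h2 : 0 ≤ (⌊θ / Real.pi⌋ : ℝ) * Real.pi := mul_nonneg hfl hp.le
    rw [h1]
    linarith
  · rw [← hθ, hx, hpq]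
    rw [show θ - (⌊θ / Real.pi⌋ : ℝ) * Real.pi - θ = -((⌊θ / Real.pi⌋ : ℝ) * Real.pi) by ring,
      Real.sin_neg, Real.sin_int_mul_pi, neg_zero]
  · rintro x ⟨hx0, -, hx2⟩
    rw [← hθ] at hx2
    obtain ⟨j, hj⟩ := Real.sin_eq_zero_iff.1 hx2
    have h1 : ((-j : ℤ) : ℝ) ≤ θ / Real.pi := by
      rw [le_div_iff₀ hp]
      push_cast
      have : 0 < μ * x := mul_pos hμ hx0
      linarith
    have h2 : (-j : ℤ) ≤ ⌊θ / Real.pi⌋ := Int.le_floor.2 h1
    have h3 : ((-j : ℤ) : ℝ) ≤ (⌊θ / Real.pi⌋ : ℝ) := by exact_mod_cast h2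
    push_cast at h3
    rw [div_le_iff₀ hμ, hpq]
    have h4 : -(j : ℝ) * Real.pi ≤ ⌊θ / Real.pi⌋ * Real.pi := mul_le_mul_of_nonneg_right h3 hp.le
    linarith

theorem zs_symm {μ l x : ℝ} (h : x ∈ zs μ l) : l - x ∈ zs μ l := by
  obtain ⟨h1, h2, h3⟩ := h
  refine ⟨by linarith, by linarith, ?_⟩
  rw [show μ * (l - x) - μ * l / 2 = -(μ * x - μ * l / 2) by ring, Real.sin_neg, h3, neg_zero]

theorem zs_greatest {μ l : ℝ} (hμ : 0 < μ) (hl : 0 < l) (hs : Real.sin (μ * l / 2) ≠ 0) :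
    IsGreatest (zs μ l) (l - Real.pi * Int.fract (μ * l / 2 / Real.pi) / μ) := by
  have h := zs_least hμ hl hs
  refine ⟨zs_symm h.1, ?_⟩
  intro x hx
  have := h.2 (zs_symm hx)
  linarith

variable {l₁ l₂ : ℝ} (h₁ : 0 < l₁) (h₂ : 0 < l₂)

/-- The Neumann points of a multiple of the symmetric solution on an edge. -/
theorem deriv_sym {μ c l : ℝ} (hμ : μ ≠ 0) (hc : c ≠ 0) (hC : Real.cos (μ * l / 2) ≠ 0) (x : ℝ) :
    deriv (sol μ (c * 1) (c * (Real.sin (μ * l / 2) / Real.cos (μ * l / 2)))) x = 0 ↔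
      Real.sin (μ * x - μ * l / 2) = 0 := by
  rw [deriv_sol]
  have : sol μ (μ * (c * (Real.sin (μ * l / 2) / Real.cos (μ * l / 2)))) (-(μ * (c * 1))) x =
      -(μ * c / Real.cos (μ * l / 2)) * Real.sin (μ * x - μ * l / 2) := by
    rw [Real.sin_sub]
    unfold sol
    field_simp
    ring
  rw [this]
  have h : -(μ * c / Real.cos (μ * l / 2)) ≠ 0 :=
    neg_ne_zero.2 (div_ne_zero (mul_ne_zero hμ hc) hC)
  constructor
  · intro h'
    exact (mul_eq_zero.1 h').resolve_left h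
  · intro h'
    rw [h', mul_zero]

/-- The fractional parts of two numbers with integral sum. -/
theorem fract_add {a b : ℝ} {m : ℤ} (h : a + b = m) (ha : Int.fract a ≠ 0) :
    Int.fract a + Int.fract b = 1 := by
  have hb : b = -a + (m : ℤ) := by linarith
  rw [hb, Int.fract_add_intCast, Int.fract_neg ha]
  ring

theorem rho_sym (hi : Irrational (l₁ / l₂)) {μ : ℝ} (hμ : 0 < μ)
    (hs : Real.sin (μ * (l₁ + l₂) / 2) = 0) {f : (figEight l₁ l₂ h₁ h₂).E → ℝ → ℝ}
    (hf : f ∈ Eig (figEight l₁ l₂ h₁ h₂) μ) (hf0 : f ≠ 0) (v : (figEight l₁ l₂ h₁ h₂).V) :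
    rho (figEight l₁ l₂ h₁ h₂) μ f v = 2 := by
  obtain ⟨hs1, hs2, hc1, hc2, -, hall⟩ := eig_sym h₁ h₂ hi hμ.ne' hs
  obtain ⟨c, hc⟩ := hall f hf
  have hc0 : c ≠ 0 := by
    rintro rfl
    apply hf0
    rw [hc]
    exact zero_smul ℝ _
  have hft : f true = sol μ (c * 1) (c * (Real.sin (μ * l₁ / 2) / Real.cos (μ * l₁ / 2))) := by
    rw [hc, smul_fn]
    exact fn_true _ _ _ _ _
  have hff : f false = sol μ (c * 1) (c * (Real.sin (μ * l₂ / 2) / Real.cos (μ * l₂ / 2))) := by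
    rw [hc, smul_fn]
    exact fn_false _ _ _ _ _
  have hl1 : (figEight l₁ l₂ h₁ h₂).len true = l₁ := by simp [figEight]
  have hl2 : (figEight l₁ l₂ h₁ h₂).len false = l₂ := by simp [figEight]
  have hz1 : crit (figEight l₁ l₂ h₁ h₂) f true = zs μ l₁ := by
    ext x
    unfold crit zs
    rw [mem_ofPred_eq, mem_ofPred_eq, hl1, hft, deriv_sym hμ.ne' hc0 hc1]
  have hz2 : crit (figEight l₁ l₂ h₁ h₂) f false = zs μ l₂ := by
    ext x
    unfold crit zs
    rw [mem_ofPred_eq, mem_ofPred_eq, hl2, hff, deriv_sym hμ.ne' hc0 hc2]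
  have hr : ∀ w : (figEight l₁ l₂ h₁ h₂).V, Reach (figEight l₁ l₂ h₁ h₂) f v w := by
    intro w
    have : v = w := Subsingleton.elim (α := Unit) v w
    rw [this]
    exact Relation.ReflTransGen.refl
  have hL1 := zs_least hμ h₁ hs1
  have hL2 := zs_least hμ h₂ hs2
  have hG1 := zs_greatest hμ h₁ hs1
  have hG2 := zs_greatest hμ h₂ hs2
  have hne1 : zs μ l₁ ≠ ∅ := Set.nonempty_iff_ne_empty.1 ⟨_, hL1.1⟩
  have hne2 : zs μ l₂ ≠ ∅ := Set.nonempty_iff_ne_empty.1 ⟨_, hL2.1⟩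
  have hsum : domLen (figEight l₁ l₂ h₁ h₂) f v =
      2 * (Real.pi * Int.fract (μ * l₁ / 2 / Real.pi) / μ) +
      2 * (Real.pi * Int.fract (μ * l₂ / 2 / Real.pi) / μ) := by
    have h1 : domLen (figEight l₁ l₂ h₁ h₂) f v = ∑ e, (if crit (figEight l₁ l₂ h₁ h₂) f e = ∅
        then (figEight l₁ l₂ h₁ h₂).len e else sInf (crit (figEight l₁ l₂ h₁ h₂) f e) +
          ((figEight l₁ l₂ h₁ h₂).len e - sSup (crit (figEight l₁ l₂ h₁ h₂) f e))) := by
      unfold domLen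
      simp only [hr, if_true]
    have hb : ∀ g : Bool → ℝ, (∑ e : (figEight l₁ l₂ h₁ h₂).E, g e) = g true + g false := by
      intro g
      exact Fintype.sum_bool g
    rw [h1]
    refine (hb _).trans ?_
    have t1 : (if crit (figEight l₁ l₂ h₁ h₂) f true = ∅
        then (figEight l₁ l₂ h₁ h₂).len true else sInf (crit (figEight l₁ l₂ h₁ h₂) f true) +
          ((figEight l₁ l₂ h₁ h₂).len true - sSup (crit (figEight l₁ l₂ h₁ h₂) f true))) =
        2 * (Real.pi * Int.fract (μ * l₁ / 2 / Real.pi) / μ) := by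
      rw [hz1, if_neg hne1, hL1.csInf_eq, hG1.csSup_eq, hl1]
      ring
    have t2 : (if crit (figEight l₁ l₂ h₁ h₂) f false = ∅
        then (figEight l₁ l₂ h₁ h₂).len false else sInf (crit (figEight l₁ l₂ h₁ h₂) f false) +
          ((figEight l₁ l₂ h₁ h₂).len false - sSup (crit (figEight l₁ l₂ h₁ h₂) f false))) =
        2 * (Real.pi * Int.fract (μ * l₂ / 2 / Real.pi) / μ) := by
      rw [hz2, if_neg hne2, hL2.csInf_eq, hG2.csSup_eq, hl2]
      ring
    exact congrArg₂ (· + ·) t1 t2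
  have hp := Real.pi_pos
  obtain ⟨m, hm⟩ := Real.sin_eq_zero_iff.1 hs
  have hfr : Int.fract (μ * l₁ / 2 / Real.pi) + Int.fract (μ * l₂ / 2 / Real.pi) = 1 := by
    refine fract_add (m := m) ?_ ?_
    · field_simp
      linarith
    · intro h0
      have h5 := hL1.1.1
      rw [h0] at h5
      simp at h5
  unfold rho
  rw [hsum]
  have : μ * (2 * (Real.pi * Int.fract (μ * l₁ / 2 / Real.pi) / μ) +
      2 * (Real.pi * Int.fract (μ * l₂ / 2 / Real.pi) / μ)) / Real.pi =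
      2 * (Int.fract (μ * l₁ / 2 / Real.pi) + Int.fract (μ * l₂ / 2 / Real.pi)) := by
    field_simp
  rw [this, hfr, mul_one]

/-- The eigenfunctions for the eigenvalue `0` are the constants. -/
theorem eig_zero :
    ((fun _ _ => 1 : Bool → ℝ → ℝ) : (figEight l₁ l₂ h₁ h₂).E → ℝ → ℝ) ∈
      Eig (figEight l₁ l₂ h₁ h₂) 0 ∧
      ∀ f ∈ Eig (figEight l₁ l₂ h₁ h₂) 0, ∃ c : ℝ, f = c • (fun _ _ => 1) := by
  constructor
  · refine (mem_iff h₁ h₂).2 ?_
    have hd : deriv (fun _ : ℝ => (1 : ℝ)) = fun _ => 0 := by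
      funext x
      simp
    refine ⟨fun e => ⟨differentiable_const _, ?_, ?_⟩, ⟨rfl, rfl, rfl⟩, ?_⟩
    · change Differentiable ℝ (deriv (fun _ : ℝ => (1 : ℝ)))
      rw [hd]
      exact differentiable_const _
    · intro x
      change deriv (deriv (fun _ : ℝ => (1 : ℝ))) x = _
      rw [hd]
      simp
    · change deriv (fun _ : ℝ => (1 : ℝ)) 0 + deriv (fun _ : ℝ => (1 : ℝ)) 0 -
        (deriv (fun _ : ℝ => (1 : ℝ)) l₁ + deriv (fun _ : ℝ => (1 : ℝ)) l₂) = 0
      rw [hd]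
      simp
  · intro f hf
    obtain ⟨hf, ⟨ha, hb, hc⟩, -⟩ := (mem_iff h₁ h₂).1 hf
    have key : ∀ (g : ℝ → ℝ) (l : ℝ), 0 < l → Differentiable ℝ g → Differentiable ℝ (deriv g) →
        (∀ x, deriv (deriv g) x = -((0 : ℝ) ^ 2 * g x)) → g l = g 0 → ∀ x, g x = g 0 := by
      intro g l hl h1 h2 h3 h4
      have h3' : ∀ x, deriv (deriv g) x = 0 := by
        intro x
        rw [h3 x]
        ring
      have h5 : ∀ x, deriv g x = deriv g 0 := fun x => is_const_of_deriv_eq_zero h2 h3' x 0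
      have h6 : ∀ x, HasDerivAt (fun x => g x - deriv g 0 * x) 0 x := by
        intro x
        have := ((h1 x).hasDerivAt).sub ((hasDerivAt_id x).const_mul (deriv g 0))
        refine this.congr_deriv ?_
        rw [h5 x]
        simp
      have h7 : ∀ x, g x - deriv g 0 * x = g 0 - deriv g 0 * 0 := fun x =>
        is_const_of_deriv_eq_zero (fun x => (h6 x).differentiableAt) (fun x => (h6 x).deriv) x 0
      have h8 := h7 l
      rw [h4] at h8
      have h9 : deriv g 0 * l = 0 := by linarith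
      have h10 : deriv g 0 = 0 := (mul_eq_zero.1 h9).resolve_right hl.ne'
      intro x
      have := h7 x
      rw [h10] at this
      linarith
    refine ⟨f true 0, ?_⟩
    funext e x
    cases e
    · have := key (f false) l₂ h₂ (hf false).1 (hf false).2.1 (hf false).2.2 hc x
      rw [this, ← ha]
      change f true 0 = f true 0 * 1
      ring
    · have := key (f true) l₁ h₁ (hf true).1 (hf true).2.1 (hf true).2.2 hb x
      rw [this]
      change f true 0 = f true 0 * 1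
      ring

/-- The dimensions of the eigenspaces. -/
theorem dims (hi : Irrational (l₁ / l₂)) (μ : ℝ) :
    Module.Finite ℝ (Eig (figEight l₁ l₂ h₁ h₂) μ) ∧
      Module.finrank ℝ (Eig (figEight l₁ l₂ h₁ h₂) μ) =
        if μ = 0 ∨ InSpec l₁ l₂ μ then 1 else 0 := by
  by_cases h0 : μ = 0
  · subst h0
    rw [if_pos (Or.inl rfl)]
    have h := eig_zero h₁ h₂
    have hne : ((fun _ _ => 1 : Bool → ℝ → ℝ) : (figEight l₁ l₂ h₁ h₂).E → ℝ → ℝ) ≠ 0 := by
      intro h
      have := congrFun (congrFun h true) 0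
      change (1 : ℝ) = 0 at this
      norm_num at this
    have := finrank_one (Eig (figEight l₁ l₂ h₁ h₂) 0) _ h.1 hne h.2
    exact ⟨this.2, this.1⟩
  · by_cases hs : InSpec l₁ l₂ μ
    · rw [if_pos (Or.inr hs)]
      rcases hs with hs | hs | hs
      · have h := eig_loop₁ h₁ h₂ hi h0 hs
        have := finrank_one (Eig (figEight l₁ l₂ h₁ h₂) μ) _ h.1
          (fn_ne h0 (Or.inr (Or.inl one_ne_zero))) h.2
        exact ⟨this.2, this.1⟩
      · have h := eig_loop₂ h₁ h₂ hi h0 hs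
        have := finrank_one (Eig (figEight l₁ l₂ h₁ h₂) μ) _ h.1
          (fn_ne h0 (Or.inr (Or.inr (Or.inr one_ne_zero)))) h.2
        exact ⟨this.2, this.1⟩
      · obtain ⟨-, -, -, -, h⟩ := eig_sym h₁ h₂ hi h0 hs
        have := finrank_one (Eig (figEight l₁ l₂ h₁ h₂) μ) _ h.1
          (fn_ne h0 (Or.inl one_ne_zero)) h.2
        exact ⟨this.2, this.1⟩
    · rw [if_neg (by tauto)]
      rw [eig_bot h₁ h₂ h0 hs]
      exact ⟨inferInstance, finrank_bot ℝ _⟩

end Pool.Agent.Q177.FE
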