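import Mathlib

/-!
# Metric graphs, generic eigenfunctions, Neumann domains and their wavelength capacity
-/

open Set Filter Topology MeasureTheory
open scoped Classical

set_option autoImplicit false

namespace Pool.Agent.Q177.FE

/-- A finite metric graph: finitely many vertices and edges, every edge carries a positive length.
Loops and multiple edges are allowed. The edge `e` is parametrised by `[0, len e]`, from `src e` to
`tgt e`. -/
structure MGraph where
  V : Type
  E : Type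
  fV : Fintype V
  fE : Fintype E
  src : E → V
  tgt : E → V
  len : E → ℝ
  len_pos : ∀ e, 0 < len e

attribute [instance] MGraph.fV MGraph.fE

/-- The degree of a vertex: the number of edge ends at the vertex (a loop counts twice). -/
noncomputable def MGraph.deg (Γ : MGraph) (v : Γ.V) : ℕ :=
  (Finset.univ.filter fun e => Γ.src e = v).card + (Finset.univ.filter fun e => Γ.tgt e = v).card

/-- The graph is connected and every vertex has degree one (boundary) or at least three
(interior). -/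
def MGraph.Standard (Γ : MGraph) : Prop :=
  (∀ v w : Γ.V, Relation.EqvGen (fun a b => ∃ e, Γ.src e = a ∧ Γ.tgt e = b) v w) ∧
    ∀ v, Γ.deg v = 1 ∨ 3 ≤ Γ.deg v

/-- The eigenspace of `f ↦ -f''` with Neumann–Kirchhoff conditions for the eigenvalue `μ²`.
A function on the graph which solves `-f'' = μ² f` on every edge is given by the solutions
`f e : ℝ → ℝ` on the whole line which extend it. -/
noncomputable def Eig (Γ : MGraph) (μ : ℝ) : Submodule ℝ (Γ.E → ℝ → ℝ) where
  carrier := {f | (∀ e, Differentiable ℝ (f e) ∧ Differentiable ℝ (deriv (f e)) ∧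
      ∀ x, deriv (deriv (f e)) x = -(μ ^ 2 * f e x)) ∧
    (∃ φ : Γ.V → ℝ, ∀ e, f e 0 = φ (Γ.src e) ∧ f e (Γ.len e) = φ (Γ.tgt e)) ∧
    ∀ v, (∑ e ∈ Finset.univ.filter (fun e => Γ.src e = v), deriv (f e) 0) -
      (∑ e ∈ Finset.univ.filter (fun e => Γ.tgt e = v), deriv (f e) (Γ.len e)) = 0}
  add_mem' := by
    rintro f g ⟨hf, ⟨φ, hφ⟩, hfk⟩ ⟨hg, ⟨ψ, hψ⟩, hgk⟩
    have hd : ∀ e, deriv ((f + g) e) = fun x => deriv (f e) x + deriv (g e) x := by
      intro e
      funext x
      exact deriv_add ((hf e).1 x) ((hg e).1 x)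
    refine ⟨fun e => ⟨(hf e).1.add (hg e).1, ?_, ?_⟩, ⟨φ + ψ, fun e => ?_⟩, fun v => ?_⟩
    · rw [hd e]
      exact (hf e).2.1.add (hg e).2.1
    · intro x
      rw [hd e]
      have : deriv (fun x => deriv (f e) x + deriv (g e) x) x =
          deriv (deriv (f e)) x + deriv (deriv (g e)) x :=
        deriv_add ((hf e).2.1 x) ((hg e).2.1 x)
      rw [this, (hf e).2.2 x, (hg e).2.2 x]
      simp only [Pi.add_apply]
      ring
    · simp [(hφ e).1, (hφ e).2, (hψ e).1, (hψ e).2]
    · have h1 := hfk v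
      have h2 := hgk v
      simp only [hd, Finset.sum_add_distrib]
      linarith
  zero_mem' := by
    have hd : ∀ e : Γ.E, deriv ((0 : Γ.E → ℝ → ℝ) e) = fun _ => 0 := by
      intro e
      funext x
      simp
    refine ⟨fun e => ⟨differentiable_const _, ?_, ?_⟩, ⟨0, fun e => by simp⟩, fun v => ?_⟩
    · rw [hd e]; exact differentiable_const _
    · intro x
      rw [hd e]
      simp
    · simp [hd]
  smul_mem' := by
    rintro c f ⟨hf, ⟨φ, hφ⟩, hfk⟩
    have hd : ∀ e, deriv ((c • f) e) = fun x => c * deriv (f e) x := by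
      intro e
      funext x
      exact deriv_const_mul c ((hf e).1 x)
    refine ⟨fun e => ⟨(hf e).1.const_mul c, ?_, ?_⟩, ⟨c • φ, fun e => ?_⟩, fun v => ?_⟩
    · rw [hd e]
      exact (hf e).2.1.const_mul c
    · intro x
      rw [hd e]
      have : deriv (fun x => c * deriv (f e) x) x = c * deriv (deriv (f e)) x :=
        deriv_const_mul c ((hf e).2.1 x)
      rw [this, (hf e).2.2 x]
      simp only [Pi.smul_apply, smul_eq_mul]
      ring
    · simp [(hφ e).1, (hφ e).2]
    · have h1 := hfk v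
      simp only [hd, ← Finset.mul_sum]
      rw [← mul_sub, h1, mul_zero]

/-- `k₀ ≤ k₁ ≤ …` are the square roots of the eigenvalues, counted with multiplicity. -/
def IsSpectrum (Γ : MGraph) (k : ℕ → ℝ) : Prop :=
  Monotone k ∧ (∀ n, 0 ≤ k n) ∧ ∀ μ, 0 ≤ μ → Module.Finite ℝ (Eig Γ μ) ∧
    {n | k n = μ}.Finite ∧ {n | k n = μ}.ncard = Module.finrank ℝ (Eig Γ μ)

/-- The function `f` vanishes at no vertex and no outgoing derivative of `f` at an interior vertex
vanishes. -/
def NonVanishing (Γ : MGraph) (f : Γ.E → ℝ → ℝ) : Prop :=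
  ∀ e, f e 0 ≠ 0 ∧ f e (Γ.len e) ≠ 0 ∧ (Γ.deg (Γ.src e) ≠ 1 → deriv (f e) 0 ≠ 0) ∧
    (Γ.deg (Γ.tgt e) ≠ 1 → deriv (f e) (Γ.len e) ≠ 0)

/-- The indices `n` of the generic eigenfunctions: `k_n²` is simple and its eigenfunctions satisfy
`NonVanishing`. -/
def GenericSet (Γ : MGraph) (k : ℕ → ℝ) : Set ℕ :=
  {n | Module.finrank ℝ (Eig Γ (k n)) = 1 ∧ ∀ f ∈ Eig Γ (k n), f ≠ 0 → NonVanishing Γ f}

/-- The Neumann points of `f` on the edge `e`. -/
def crit (Γ : MGraph) (f : Γ.E → ℝ → ℝ) (e : Γ.E) : Set ℝ :=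
  {x | 0 < x ∧ x < Γ.len e ∧ deriv (f e) x = 0}

/-- `v` and `w` are joined by edges without Neumann points. -/
def Reach (Γ : MGraph) (f : Γ.E → ℝ → ℝ) (v w : Γ.V) : Prop :=
  Relation.ReflTransGen (fun a b => ∃ e, crit Γ f e = ∅ ∧
    ((Γ.src e = a ∧ Γ.tgt e = b) ∨ (Γ.tgt e = a ∧ Γ.src e = b))) v w

/-- The total length of the Neumann domain of `f` which contains the vertex `v`. -/
noncomputable def domLen (Γ : MGraph) (f : Γ.E → ℝ → ℝ) (v : Γ.V) : ℝ :=
  ∑ e, if crit Γ f e = ∅ then (if Reach Γ f v (Γ.src e) then Γ.len e else 0)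
    else (if Reach Γ f v (Γ.src e) then sInf (crit Γ f e) else 0) +
      (if Reach Γ f v (Γ.tgt e) then Γ.len e - sSup (crit Γ f e) else 0)

/-- The wavelength capacity of this Neumann domain. -/
noncomputable def rho (Γ : MGraph) (μ : ℝ) (f : Γ.E → ℝ → ℝ) (v : Γ.V) : ℝ :=
  μ * domLen Γ f v / Real.pi

/-- The indices `n` of generic eigenfunctions for which the wavelength capacity at `v` is in `B`. -/
def Pre (Γ : MGraph) (k : ℕ → ℝ) (v : Γ.V) (B : Set ℝ) : Set ℕ :=
  {n | n ∈ GenericSet Γ k ∧ ∃ f ∈ Eig Γ (k n), f ≠ 0 ∧ rho Γ (k n) f v ∈ B}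

/-- The density `d_G(A)` is `d`. -/
def HasDensity (G A : Set ℕ) (d : ℝ) : Prop :=
  Tendsto (fun N : ℕ => ((A ∩ Iic N).ncard : ℝ) / ((G ∩ Iic N).ncard : ℝ)) atTop (𝓝 d)

/-- The wavelength capacity at `v` is distributed with the finitely supported discrete part `p` and
the density `g`. -/
def HasLaw (Γ : MGraph) (k : ℕ → ℝ) (v : Γ.V) (p : ℝ →₀ ℝ) (g : ℝ → ℝ) : Prop :=
  ∀ a b : ℝ, a < b → HasDensity (GenericSet Γ k) (Pre Γ k v (Ioo a b))
    ((∫ x in a..b, g x) + ∑ x ∈ p.support.filter (fun x => x ∈ Ioo a b), p x)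

/-- The figure eight: one vertex and two loops of lengths `l₁`, `l₂`. -/
def figEight (l₁ l₂ : ℝ) (h₁ : 0 < l₁) (h₂ : 0 < l₂) : MGraph where
  V := Unit
  E := Bool
  fV := inferInstance
  fE := inferInstance
  src := fun _ => ()
  tgt := fun _ => ()
  len := fun e => if e then l₁ else l₂
  len_pos := by
    intro e
    cases e <;> simp [h₁, h₂]

end Pool.Agent.Q177.FE
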