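import Pool.Agent.Q177.FE.Cap

/-!
# The enumeration of the spectrum and the main theorem
-/

open Set Filter Topology MeasureTheory
open scoped Classical

set_option autoImplicit false

namespace Pool.Agent.Q177.FE

/-- A locally finite unbounded set of nonnegative numbers which contains `0` can be enumerated
increasingly. -/
theorem exists_enum (S : Set ℝ) (h0 : (0 : ℝ) ∈ S) (hn : ∀ x ∈ S, 0 ≤ x)
    (hf : ∀ R : ℝ, (S ∩ Iic R).Finite) (hu : ∀ R : ℝ, ∃ x ∈ S, R < x) :
    ∃ k : ℕ → ℝ, StrictMono k ∧ range k = S := by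
  have hl : ∀ x : ℝ, ∃ y, IsLeast (S ∩ Ioi x) y := by
    intro x
    obtain ⟨s, hs, hxs⟩ := hu x
    have hfin : (S ∩ Iic s ∩ Ioi x).Finite := (hf s).subset inter_subset_left
    obtain ⟨m, hm, hmin⟩ := hfin.exists_minimal ⟨s, ⟨hs, le_refl s⟩, hxs⟩
    refine ⟨m, ⟨hm.1.1, hm.2⟩, ?_⟩
    rintro z ⟨hz1, hz2⟩
    by_cases hzs : z ≤ s
    · by_contra hlt
      push Not at hlt
      have := hmin (y := z) ⟨⟨hz1, hzs⟩, hz2⟩ hlt.le
      exact absurd this (not_le.2 hlt)
    · push Not at hzs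
      have : m ≤ s := hm.1.2
      linarith
  choose nx hnx using hl
  let k : ℕ → ℝ := fun n => nx^[n] 0
  have hk : ∀ n, k (n + 1) = nx (k n) := fun n => Function.iterate_succ_apply' nx n 0
  have hk0 : k 0 = 0 := rfl
  have hmono : StrictMono k := by
    apply strictMono_nat_of_lt_succ
    intro n
    rw [hk n]
    exact (hnx (k n)).1.2
  refine ⟨k, hmono, ?_⟩
  apply Subset.antisymm
  · rintro _ ⟨n, rfl⟩
    cases n with
    | zero => rw [hk0]; exact h0
    | succ n => rw [hk n]; exact (hnx (k n)).1.1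
  · intro s hs
    by_contra hns
    have hlt : ∀ n, k n < s := by
      intro n
      induction n with
      | zero =>
        rw [hk0]
        refine lt_of_le_of_ne (hn s hs) ?_
        rintro rfl
        exact hns ⟨0, hk0⟩
      | succ n ih =>
        have h1 : k (n + 1) ≤ s := by
          rw [hk n]
          exact (hnx (k n)).2 ⟨hs, ih⟩
        refine lt_of_le_of_ne h1 ?_
        intro h2
        exact hns ⟨n + 1, h2⟩
    have hinf : (S ∩ Iic s).Infinite := by
      apply Set.infinite_of_injective_forall_mem hmono.injective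
      intro n
      refine ⟨?_, (hlt n).le⟩
      cases n with
      | zero => rw [hk0]; exact h0
      | succ n => rw [hk n]; exact (hnx (k n)).1.1
    exact hinf (hf s)

/-- The zeros of `sin (μ a)` are locally finite. -/
theorem finite_zeros {a : ℝ} (ha : 0 < a) (R : ℝ) :
    {μ : ℝ | 0 ≤ μ ∧ μ ≤ R ∧ Real.sin (μ * a) = 0}.Finite := by
  have hp := Real.pi_pos
  have : {μ : ℝ | 0 ≤ μ ∧ μ ≤ R ∧ Real.sin (μ * a) = 0} ⊆
      (fun j : ℤ => (j : ℝ) * Real.pi / a) '' (Icc 0 ⌈R * a / Real.pi⌉) := by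
    rintro μ ⟨h0, h1, h2⟩
    obtain ⟨j, hj⟩ := Real.sin_eq_zero_iff.1 h2
    refine ⟨j, ⟨?_, ?_⟩, ?_⟩
    · have : (0 : ℝ) ≤ j := by
        by_contra h
        push Not at h
        have h3 : (j : ℝ) * Real.pi < 0 := mul_neg_of_neg_of_pos h hp
        have h4 : 0 ≤ μ * a := mul_nonneg h0 ha.le
        linarith
      exact_mod_cast this
    · have h3 : (j : ℝ) ≤ R * a / Real.pi := by
        rw [le_div_iff₀ hp, hj]
        exact mul_le_mul_of_nonneg_right h1 ha.le
      exact_mod_cast h3.trans (Int.le_ceil _)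
    · change (j : ℝ) * Real.pi / a = μ
      rw [hj]
      field_simp
  exact ((Set.finite_Icc _ _).image _).subset this

variable {l₁ l₂ : ℝ} (h₁ : 0 < l₁) (h₂ : 0 < l₂)

theorem exists_spectrum (hi : Irrational (l₁ / l₂)) :
    ∃ k : ℕ → ℝ, IsSpectrum (figEight l₁ l₂ h₁ h₂) k := by
  have hp := Real.pi_pos
  obtain ⟨k, hk, hr⟩ := exists_enum {μ : ℝ | 0 ≤ μ ∧ (μ = 0 ∨ InSpec l₁ l₂ μ)}
    ⟨le_refl _, Or.inl rfl⟩ (fun x hx => hx.1) (by
      intro R
      have hsub : ({μ : ℝ | 0 ≤ μ ∧ (μ = 0 ∨ InSpec l₁ l₂ μ)} ∩ Iic R) ⊆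
          ({0} ∪ {μ : ℝ | 0 ≤ μ ∧ μ ≤ R ∧ Real.sin (μ * (l₁ / 2)) = 0}) ∪
          ({μ : ℝ | 0 ≤ μ ∧ μ ≤ R ∧ Real.sin (μ * (l₂ / 2)) = 0} ∪
          {μ : ℝ | 0 ≤ μ ∧ μ ≤ R ∧ Real.sin (μ * ((l₁ + l₂) / 2)) = 0}) := by
        rintro μ ⟨⟨h0, h⟩, hR⟩
        rcases h with h | h | h | h
        · exact Or.inl (Or.inl h)
        · refine Or.inl (Or.inr ⟨h0, hR, ?_⟩)
          rw [← h]; congr 1; ring
        · refine Or.inr (Or.inl ⟨h0, hR, ?_⟩)
          rw [← h]; congr 1; ring
        · refine Or.inr (Or.inr ⟨h0, hR, ?_⟩)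
          rw [← h]; congr 1; ring
      refine Set.Finite.subset ?_ hsub
      exact (((finite_singleton _).union (finite_zeros (half_pos h₁) R))).union
        ((finite_zeros (half_pos h₂) R).union
          (finite_zeros (half_pos (add_pos h₁ h₂)) R))) (by
      intro R
      obtain ⟨n, hn⟩ := exists_nat_gt (R * l₁ / (2 * Real.pi))
      refine ⟨2 * Real.pi * n / l₁, ⟨by positivity, Or.inr (Or.inl ?_)⟩, ?_⟩
      · have : 2 * Real.pi * n / l₁ * l₁ / 2 = (n : ℕ) * Real.pi := by field_simp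
        rw [this]
        exact Real.sin_nat_mul_pi n
      · rw [div_lt_iff₀ (by positivity)] at hn
        rw [lt_div_iff₀ h₁]
        linarith)
  refine ⟨k, hk.monotone, ?_, ?_⟩
  · intro n
    have : k n ∈ range k := ⟨n, rfl⟩
    rw [hr] at this
    exact this.1
  · intro μ hμ
    obtain ⟨hd1, hd2⟩ := dims h₁ h₂ hi μ
    refine ⟨hd1, ?_, ?_⟩
    · apply Set.Subsingleton.finite
      intro a ha b hb
      exact hk.injective (ha.trans hb.symm)
    · rw [hd2]
      by_cases h : μ = 0 ∨ InSpec l₁ l₂ μ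
      · rw [if_pos h]
        have : μ ∈ range k := by
          rw [hr]
          exact ⟨hμ, h⟩
        obtain ⟨n, hn⟩ := this
        have : {m | k m = μ} = {n} := by
          ext m
          constructor
          · intro hm
            exact hk.injective (hm.trans hn.symm)
          · rintro rfl
            exact hn
        rw [this, ncard_singleton]
      · rw [if_neg h]
        have : {m | k m = μ} = ∅ := by
          ext m
          constructor
          · intro hm
            exfalso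
            have h2 : k m ∈ range k := ⟨m, rfl⟩
            rw [hr] at h2
            rw [show k m = μ from hm] at h2
            exact h h2.2
          · intro hm
            exact absurd hm (notMem_empty m)
        rw [this, ncard_empty]

/-- The generic indices. -/
theorem generic_iff (hi : Irrational (l₁ / l₂)) {k : ℕ → ℝ}
    (hk : IsSpectrum (figEight l₁ l₂ h₁ h₂) k) (n : ℕ) :
    n ∈ GenericSet (figEight l₁ l₂ h₁ h₂) k ↔
      0 < k n ∧ Real.sin (k n * (l₁ + l₂) / 2) = 0 := by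
  constructor
  · rintro ⟨hd, hall⟩
    have h0 : k n ≠ 0 := by
      intro h0
      rw [h0] at hall
      have hz := eig_zero h₁ h₂
      have hne : ((fun _ _ => 1 : Bool → ℝ → ℝ) : (figEight l₁ l₂ h₁ h₂).E → ℝ → ℝ) ≠ 0 := by
        intro h
        have := congrFun (congrFun h true) 0
        change (1 : ℝ) = 0 at this
        norm_num at this
      have := (hall _ hz.1 hne true).2.2.1 (by rw [deg_fig]; norm_num)
      apply this
      change deriv (fun _ : ℝ => (1 : ℝ)) 0 = 0
      simp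
    have hpos : 0 < k n := lt_of_le_of_ne (hk.2.1 n) (Ne.symm h0)
    refine ⟨hpos, ?_⟩
    have hd2 := (dims h₁ h₂ hi (k n)).2
    have hsp : InSpec l₁ l₂ (k n) := by
      by_contra hns
      rw [if_neg (by tauto)] at hd2
      rw [hd] at hd2
      norm_num at hd2
    rcases hsp with hs | hs | hs
    · exfalso
      have h := eig_loop₁ h₁ h₂ hi h0 hs
      have h3 := (hall _ h.1 (fn_ne h0 (Or.inr (Or.inl one_ne_zero))) true).1
      apply h3
      change fn (k n) 0 1 0 0 true 0 = 0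
      rw [fn_true]
      simp [sol]
    · exfalso
      have h := eig_loop₂ h₁ h₂ hi h0 hs
      have h3 := (hall _ h.1 (fn_ne h0 (Or.inr (Or.inr (Or.inr one_ne_zero)))) true).1
      apply h3
      change fn (k n) 0 0 0 1 true 0 = 0
      rw [fn_true]
      simp [sol]
    · exact hs
  · rintro ⟨hpos, hs⟩
    have h0 := hpos.ne'
    have hd2 := (dims h₁ h₂ hi (k n)).2
    have hin : InSpec l₁ l₂ (k n) := Or.inr (Or.inr hs)
    rw [if_pos (Or.inr hin)] at hd2
    refine ⟨hd2, ?_⟩
    intro f hf hf0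
    obtain ⟨hs1, hs2, hc1, hc2, -, hall⟩ := eig_sym h₁ h₂ hi h0 hs
    obtain ⟨c, hc⟩ := hall f hf
    have hc0 : c ≠ 0 := by
      rintro rfl
      apply hf0
      rw [hc]
      exact zero_smul ℝ _
    have hft : f true = sol (k n) (c * 1)
        (c * (Real.sin (k n * l₁ / 2) / Real.cos (k n * l₁ / 2))) := by
      rw [hc, smul_fn]
      exact fn_true _ _ _ _ _
    have hff : f false = sol (k n) (c * 1)
        (c * (Real.sin (k n * l₂ / 2) / Real.cos (k n * l₂ / 2))) := by
      rw [hc, smul_fn]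
      exact fn_false _ _ _ _ _
    have hl1 : (figEight l₁ l₂ h₁ h₂).len true = l₁ := by simp [figEight]
    have hl2 : (figEight l₁ l₂ h₁ h₂).len false = l₂ := by simp [figEight]
    obtain ⟨-, ⟨-, hb1, hb2⟩, -⟩ := (mem_iff h₁ h₂).1 hf
    have hv : ∀ l : ℝ, sol (k n) (c * 1)
        (c * (Real.sin (k n * l / 2) / Real.cos (k n * l / 2))) 0 ≠ 0 := by
      intro l
      simp [sol, hc0]
    intro e
    cases e
    · change f false 0 ≠ 0 ∧ f false ((figEight l₁ l₂ h₁ h₂).len false) ≠ 0 ∧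
        (_ → deriv (f false) 0 ≠ 0) ∧ (_ → deriv (f false) ((figEight l₁ l₂ h₁ h₂).len false) ≠ 0)
      rw [hl2, hb2, hff]
      refine ⟨hv l₂, hv l₂, fun _ h => ?_, fun _ h => ?_⟩
      · have := (deriv_sym h0 hc0 hc2 0).1 h
        rw [mul_zero, zero_sub, Real.sin_neg] at this
        exact hs2 (neg_eq_zero.1 this)
      · have := (deriv_sym h0 hc0 hc2 l₂).1 h
        rw [show k n * l₂ - k n * l₂ / 2 = k n * l₂ / 2 by ring] at this
        exact hs2 this
    · change f true 0 ≠ 0 ∧ f true ((figEight l₁ l₂ h₁ h₂).len true) ≠ 0 ∧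
        (_ → deriv (f true) 0 ≠ 0) ∧ (_ → deriv (f true) ((figEight l₁ l₂ h₁ h₂).len true) ≠ 0)
      rw [hl1, hb1, hft]
      refine ⟨hv l₁, hv l₁, fun _ h => ?_, fun _ h => ?_⟩
      · have := (deriv_sym h0 hc0 hc1 0).1 h
        rw [mul_zero, zero_sub, Real.sin_neg] at this
        exact hs1 (neg_eq_zero.1 this)
      · have := (deriv_sym h0 hc0 hc1 l₁).1 h
        rw [show k n * l₁ - k n * l₁ / 2 = k n * l₁ / 2 by ring] at this
        exact hs1 this

theorem generic_infinite (hi : Irrational (l₁ / l₂)) {k : ℕ → ℝ}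
    (hk : IsSpectrum (figEight l₁ l₂ h₁ h₂) k) :
    (GenericSet (figEight l₁ l₂ h₁ h₂) k).Infinite := by
  have hp := Real.pi_pos
  have hL : 0 < l₁ + l₂ := add_pos h₁ h₂
  have h : ∀ m : ℕ, ∃ n, k n = 2 * Real.pi * (m + 1) / (l₁ + l₂) := by
    intro m
    set μ := 2 * Real.pi * (m + 1) / (l₁ + l₂) with hμ
    have hpos : 0 < μ := by positivity
    have hs : Real.sin (μ * (l₁ + l₂) / 2) = 0 := by
      have : μ * (l₁ + l₂) / 2 = ((m + 1 : ℕ) : ℝ) * Real.pi := by
        rw [hμ]
        push_cast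
        field_simp
      rw [this]
      exact Real.sin_nat_mul_pi _
    have hd2 := (dims h₁ h₂ hi μ).2
    have hin : InSpec l₁ l₂ μ := Or.inr (Or.inr hs)
    rw [if_pos (Or.inr hin)] at hd2
    obtain ⟨-, -, hc⟩ := hk.2.2 μ hpos.le
    rw [hd2] at hc
    have : {n | k n = μ}.Nonempty := by
      rw [← ncard_pos (hk.2.2 μ hpos.le).2.1, hc]
      exact one_pos
    exact this
  choose n hn using h
  have hinj : Function.Injective n := by
    intro a b hab
    have h1 := hn a
    rw [hab, hn b] at h1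
    have h3 : (b : ℝ) + 1 = a + 1 := by
      field_simp at h1
      linarith
    have h4 : (b : ℝ) = a := by linarith
    exact_mod_cast h4.symm
  apply Set.infinite_of_injective_forall_mem hinj
  intro m
  rw [generic_iff h₁ h₂ hi hk, hn m]
  refine ⟨by positivity, ?_⟩
  have : 2 * Real.pi * ((m : ℝ) + 1) / (l₁ + l₂) * (l₁ + l₂) / 2 =
      ((m + 1 : ℕ) : ℝ) * Real.pi := by
    push_cast
    field_simp
  rw [this]
  exact Real.sin_nat_mul_pi _

theorem rho_generic (hi : Irrational (l₁ / l₂)) {k : ℕ → ℝ}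
    (hk : IsSpectrum (figEight l₁ l₂ h₁ h₂) k) (v : (figEight l₁ l₂ h₁ h₂).V) :
    ∀ n ∈ GenericSet (figEight l₁ l₂ h₁ h₂) k, ∀ f ∈ Eig (figEight l₁ l₂ h₁ h₂) (k n),
      f ≠ 0 → rho (figEight l₁ l₂ h₁ h₂) (k n) f v = 2 := by
  intro n hn f hf hf0
  obtain ⟨hpos, hs⟩ := (generic_iff h₁ h₂ hi hk n).1 hn
  exact rho_sym h₁ h₂ hi hpos hs hf hf0 v

/-- A generic index has a nonzero eigenfunction. -/
theorem exists_ne {Γ : MGraph} {k : ℕ → ℝ} {n : ℕ} (hn : n ∈ GenericSet Γ k) :
    ∃ f ∈ Eig Γ (k n), f ≠ 0 := by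
  obtain ⟨w, hw, -⟩ := finrank_eq_one_iff'.1 hn.1
  exact ⟨w.1, w.2, fun h => hw (Subtype.ext h)⟩

theorem pre_eq (hi : Irrational (l₁ / l₂)) {k : ℕ → ℝ}
    (hk : IsSpectrum (figEight l₁ l₂ h₁ h₂) k) (v : (figEight l₁ l₂ h₁ h₂).V) (B : Set ℝ) :
    Pre (figEight l₁ l₂ h₁ h₂) k v B =
      if (2 : ℝ) ∈ B then GenericSet (figEight l₁ l₂ h₁ h₂) k else ∅ := by
  split_ifs with h
  · ext n
    constructor
    · exact fun hn => hn.1
    · intro hn
      obtain ⟨f, hf, hf0⟩ := exists_ne hn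
      refine ⟨hn, f, hf, hf0, ?_⟩
      rw [rho_generic h₁ h₂ hi hk v n hn f hf hf0]
      exact h
  · ext n
    constructor
    · rintro ⟨hn, f, hf, hf0, hB⟩
      rw [rho_generic h₁ h₂ hi hk v n hn f hf hf0] at hB
      exact absurd hB h
    · intro hn
      exact absurd hn (notMem_empty n)

theorem density_pre (hi : Irrational (l₁ / l₂)) {k : ℕ → ℝ}
    (hk : IsSpectrum (figEight l₁ l₂ h₁ h₂) k) (v : (figEight l₁ l₂ h₁ h₂).V) (B : Set ℝ) :
    HasDensity (GenericSet (figEight l₁ l₂ h₁ h₂) k) (Pre (figEight l₁ l₂ h₁ h₂) k v B)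
      (if (2 : ℝ) ∈ B then 1 else 0) := by
  rw [pre_eq h₁ h₂ hi hk v B]
  unfold HasDensity
  split_ifs with h
  · obtain ⟨n₀, hn₀⟩ := (generic_infinite h₁ h₂ hi hk).nonempty
    apply tendsto_const_nhds.congr'
    filter_upwards [eventually_ge_atTop n₀] with N hN
    have : ((GenericSet (figEight l₁ l₂ h₁ h₂) k ∩ Iic N).ncard : ℝ) ≠ 0 := by
      have h1 : 0 < (GenericSet (figEight l₁ l₂ h₁ h₂) k ∩ Iic N).ncard := by
        rw [ncard_pos ((finite_Iic N).subset inter_subset_right)]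
        exact ⟨n₀, hn₀, hN⟩
      exact_mod_cast h1.ne'
    rw [div_self this]
  · simp

theorem law_fig (hi : Irrational (l₁ / l₂)) {k : ℕ → ℝ}
    (hk : IsSpectrum (figEight l₁ l₂ h₁ h₂) k) (v : (figEight l₁ l₂ h₁ h₂).V) :
    HasLaw (figEight l₁ l₂ h₁ h₂) k v (Finsupp.single 2 1) 0 := by
  intro a b hab
  have h := density_pre h₁ h₂ hi hk v (Ioo a b)
  convert h using 1
  have h1 : (Finsupp.single (2 : ℝ) (1 : ℝ)).support = {2} :=
    Finsupp.support_single _ one_ne_zero
  rw [h1, Finset.filter_singleton]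
  split_ifs with h2 <;> simp

theorem law_unique (hi : Irrational (l₁ / l₂)) {k : ℕ → ℝ}
    (hk : IsSpectrum (figEight l₁ l₂ h₁ h₂) k) (v : (figEight l₁ l₂ h₁ h₂).V)
    (p : ℝ →₀ ℝ) (g : ℝ → ℝ) (hg : Integrable g)
    (hlaw : HasLaw (figEight l₁ l₂ h₁ h₂) k v p g) : p 2 = 1 := by
  have h1 : ∀ ε : ℝ, 0 < ε → (∫ x in (2 - ε)..(2 + ε), g x) +
      ∑ x ∈ p.support.filter (fun x => x ∈ Ioo (2 - ε) (2 + ε)), p x = 1 := by
    intro ε hε
    have h := hlaw (2 - ε) (2 + ε) (by linarith)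
    have h' := density_pre h₁ h₂ hi hk v (Ioo (2 - ε) (2 + ε))
    rw [if_pos ⟨by linarith, by linarith⟩] at h'
    exact tendsto_nhds_unique h h'
  have h2 : Tendsto (fun ε : ℝ => ∫ x in (2 - ε)..(2 + ε), g x) (𝓝[>] 0) (𝓝 0) := by
    have hint : ∀ a b : ℝ, IntervalIntegrable g volume a b := fun a b => hg.intervalIntegrable
    have hF : Continuous (fun b => ∫ x in (2 : ℝ)..b, g x) :=
      intervalIntegral.continuous_primitive hint 2
    have h3 : ∀ ε : ℝ, (∫ x in (2 - ε)..(2 + ε), g x) =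
        (∫ x in (2 : ℝ)..(2 + ε), g x) - ∫ x in (2 : ℝ)..(2 - ε), g x := by
      intro ε
      rw [intervalIntegral.integral_interval_sub_left (hint _ _) (hint _ _)]
    have h4 : Continuous (fun ε : ℝ => (∫ x in (2 : ℝ)..(2 + ε), g x) -
        ∫ x in (2 : ℝ)..(2 - ε), g x) :=
      (hF.comp (continuous_const.add continuous_id)).sub
        (hF.comp (continuous_const.sub continuous_id))
    have h5 := h4.tendsto 0
    simp only [add_zero, sub_zero, sub_self] at h5
    refine (h5.mono_left nhdsWithin_le_nhds).congr ?_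
    intro ε
    exact (h3 ε).symm
  have h3 : ∀ᶠ ε : ℝ in 𝓝[>] 0, ∑ x ∈ p.support.filter (fun x => x ∈ Ioo (2 - ε) (2 + ε)), p x =
      p 2 := by
    have h4 : ∀ᶠ ε : ℝ in 𝓝[>] 0, ∀ x ∈ p.support, x ≠ 2 → x ∉ Ioo (2 - ε) (2 + ε) := by
      rw [Filter.eventually_all_finset]
      intro x _
      by_cases hx : x = 2
      · filter_upwards with ε h using absurd hx h
      · have : 0 < |x - 2| := abs_pos.2 (sub_ne_zero.2 hx)
        filter_upwards [Ioo_mem_nhdsGT this] with ε hε _ hmem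
        have : |x - 2| < ε := by
          rw [abs_lt]
          constructor <;> linarith [hmem.1, hmem.2]
        exact absurd hε.2 (not_lt.2 this.le)
    filter_upwards [h4, self_mem_nhdsWithin] with ε hε hpos
    rw [Finset.sum_filter]
    have h5 : ∀ x ∈ p.support, (if x ∈ Ioo (2 - ε) (2 + ε) then p x else 0) =
        if x = 2 then p 2 else 0 := by
      intro x hx
      by_cases hx2 : x = 2
      · subst hx2
        have hpos' : 0 < ε := hpos
        rw [if_pos rfl, if_pos ⟨by linarith, by linarith⟩]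
      · rw [if_neg hx2, if_neg (hε x hx hx2)]
    rw [Finset.sum_congr rfl h5, Finset.sum_ite_eq' p.support 2]
    split_ifs with h6
    · rfl
    · exact (Finsupp.notMem_support_iff.1 h6).symm
  have h4 : Tendsto (fun ε : ℝ => (∫ x in (2 - ε)..(2 + ε), g x) +
      ∑ x ∈ p.support.filter (fun x => x ∈ Ioo (2 - ε) (2 + ε)), p x) (𝓝[>] 0) (𝓝 (0 + p 2)) := by
    apply h2.add
    apply tendsto_const_nhds.congr'
    filter_upwards [h3] with ε hε
    exact hε.symm
  have h5 : Tendsto (fun ε : ℝ => (∫ x in (2 - ε)..(2 + ε), g x) +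
      ∑ x ∈ p.support.filter (fun x => x ∈ Ioo (2 - ε) (2 + ε)), p x) (𝓝[>] 0) (𝓝 1) := by
    apply tendsto_const_nhds.congr'
    filter_upwards [self_mem_nhdsWithin] with ε hε
    exact (h1 ε hε).symm
  have := tendsto_nhds_unique h4 h5
  linarith

/-- Rationally independent edge lengths. -/
theorem indep_fig (hi : Irrational (l₁ / l₂)) :
    LinearIndependent ℚ (figEight l₁ l₂ h₁ h₂).len := by
  have : LinearIndependent ℚ (fun e : Bool => if e then l₁ else l₂) := by
    rw [Fintype.linearIndependent_iff]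
    intro c hc
    rw [Fintype.sum_bool] at hc
    simp only [if_true, Bool.false_eq_true, if_false] at hc
    rw [Rat.smul_def, Rat.smul_def] at hc
    have hc1 : c true = 0 := by
      by_contra h
      apply hi
      refine ⟨-(c false) / c true, ?_⟩
      have h' : (c true : ℝ) ≠ 0 := by exact_mod_cast h
      push_cast
      rw [div_eq_div_iff h' h₂.ne']
      linarith
    have hc2 : c false = 0 := by
      rw [hc1] at hc
      simp only [Rat.cast_zero, zero_mul, zero_add] at hc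
      have := (mul_eq_zero.1 hc).resolve_right h₂.ne'
      exact_mod_cast this
    intro e
    cases e
    · exact hc2
    · exact hc1
  exact this

end Pool.Agent.Q177.FE
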