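import Pool.Agent.Q177.FE.Defs

/-!
# The eigenfunctions of the figure eight
-/

open Set Filter Topology MeasureTheory
open scoped Classical

set_option autoImplicit false

namespace Pool.Agent.Q177.FE

theorem ode_sol {μ : ℝ} {f : ℝ → ℝ} (hμ : μ ≠ 0) (h1 : Differentiable ℝ f)
    (h2 : Differentiable ℝ (deriv f)) (h3 : ∀ x, deriv (deriv f) x = -(μ ^ 2 * f x)) (x : ℝ) :
    f x = f 0 * Real.cos (μ * x) + deriv f 0 / μ * Real.sin (μ * x) ∧
      deriv f x = -(μ * f 0 * Real.sin (μ * x)) + deriv f 0 * Real.cos (μ * x) := by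
  have hc : ∀ x, HasDerivAt (fun x => Real.cos (μ * x)) (-(Real.sin (μ * x)) * μ) x := by
    intro x
    simpa using ((hasDerivAt_id x).const_mul μ).cos
  have hs : ∀ x, HasDerivAt (fun x => Real.sin (μ * x)) (Real.cos (μ * x) * μ) x := by
    intro x
    simpa using ((hasDerivAt_id x).const_mul μ).sin
  have hf : ∀ x, HasDerivAt f (deriv f x) x := fun x => (h1 x).hasDerivAt
  have hg : ∀ x, HasDerivAt (deriv f) (-(μ ^ 2 * f x)) x := by
    intro x
    rw [← h3 x]
    exact (h2 x).hasDerivAt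
  have hP : ∀ x, HasDerivAt (fun x => μ * f x * Real.cos (μ * x) - deriv f x * Real.sin (μ * x))
      0 x := by
    intro x
    exact ((((hf x).const_mul μ).mul (hc x)).sub ((hg x).mul (hs x))).congr_deriv (by ring)
  have hQ : ∀ x, HasDerivAt (fun x => μ * f x * Real.sin (μ * x) + deriv f x * Real.cos (μ * x))
      0 x := by
    intro x
    exact ((((hf x).const_mul μ).mul (hs x)).add ((hg x).mul (hc x))).congr_deriv (by ring)
  have hP' := is_const_of_deriv_eq_zero (fun x => (hP x).differentiableAt)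
    (fun x => (hP x).deriv) x 0
  have hQ' := is_const_of_deriv_eq_zero (fun x => (hQ x).differentiableAt)
    (fun x => (hQ x).deriv) x 0
  simp only [mul_zero, Real.cos_zero, Real.sin_zero, mul_one, sub_zero, zero_add] at hP' hQ'
  have hcs := Real.sin_sq_add_cos_sq (μ * x)
  constructor
  · have : μ * f x = μ * f 0 * Real.cos (μ * x) + deriv f 0 * Real.sin (μ * x) := by
      linear_combination (-(μ * f x)) * hcs + Real.cos (μ * x) * hP' + Real.sin (μ * x) * hQ'
    field_simp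
    linear_combination this
  · linear_combination (-(deriv f x)) * hcs - Real.sin (μ * x) * hP' + Real.cos (μ * x) * hQ'

/-- The standard solution with given data at `0`. -/
noncomputable def sol (μ a b : ℝ) : ℝ → ℝ := fun x => a * Real.cos (μ * x) + b * Real.sin (μ * x)

theorem sol_deriv (μ a b x : ℝ) : HasDerivAt (sol μ a b)
    (sol μ (μ * b) (-(μ * a)) x) x := by
  have hc : HasDerivAt (fun x => Real.cos (μ * x)) (-(Real.sin (μ * x)) * μ) x := by
    simpa using ((hasDerivAt_id x).const_mul μ).cos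
  have hs : HasDerivAt (fun x => Real.sin (μ * x)) (Real.cos (μ * x) * μ) x := by
    simpa using ((hasDerivAt_id x).const_mul μ).sin
  exact ((hc.const_mul a).add (hs.const_mul b)).congr_deriv (by unfold sol; ring)

theorem deriv_sol (μ a b : ℝ) : deriv (sol μ a b) = sol μ (μ * b) (-(μ * a)) :=
  funext fun x => (sol_deriv μ a b x).deriv

theorem sol_smooth (μ a b : ℝ) : Differentiable ℝ (sol μ a b) ∧
    Differentiable ℝ (deriv (sol μ a b)) ∧
    ∀ x, deriv (deriv (sol μ a b)) x = -(μ ^ 2 * sol μ a b x) := by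
  refine ⟨fun x => (sol_deriv μ a b x).differentiableAt, ?_, fun x => ?_⟩
  · rw [deriv_sol]
    exact fun x => (sol_deriv _ _ _ x).differentiableAt
  · rw [deriv_sol, deriv_sol]
    unfold sol
    ring

variable {l₁ l₂ : ℝ} (h₁ : 0 < l₁) (h₂ : 0 < l₂)

theorem deg_fig (v : (figEight l₁ l₂ h₁ h₂).V) : (figEight l₁ l₂ h₁ h₂).deg v = 4 := by
  unfold MGraph.deg
  have h1 : (Finset.univ.filter fun e => (figEight l₁ l₂ h₁ h₂).src e = v) = Finset.univ := by
    apply Finset.filter_true_of_mem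
    intro e _
    rfl
  have h2 : (Finset.univ.filter fun e => (figEight l₁ l₂ h₁ h₂).tgt e = v) = Finset.univ := by
    apply Finset.filter_true_of_mem
    intro e _
    rfl
  rw [h1, h2]
  have : (Finset.univ : Finset (figEight l₁ l₂ h₁ h₂).E).card = 2 := by
    change Fintype.card Bool = 2
    simp
  rw [this]

theorem standard_fig : (figEight l₁ l₂ h₁ h₂).Standard := by
  refine ⟨fun v w => ?_, fun v => ?_⟩
  · have : v = w := Subsingleton.elim (α := Unit) v w
    rw [this]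
    exact Relation.EqvGen.refl _
  · right
    rw [deg_fig]
    norm_num

theorem mem_iff {μ : ℝ} {f : (figEight l₁ l₂ h₁ h₂).E → ℝ → ℝ} :
    f ∈ Eig (figEight l₁ l₂ h₁ h₂) μ ↔
      (∀ e, Differentiable ℝ (f e) ∧ Differentiable ℝ (deriv (f e)) ∧
        ∀ x, deriv (deriv (f e)) x = -(μ ^ 2 * f e x)) ∧
      (f true 0 = f false 0 ∧ f true l₁ = f true 0 ∧ f false l₂ = f false 0) ∧
      deriv (f true) 0 + deriv (f false) 0 - (deriv (f true) l₁ + deriv (f false) l₂) = 0 := by
  have hsum : ∀ (g : Bool → ℝ) (v : Unit),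
      (∑ e ∈ Finset.univ.filter (fun e : (figEight l₁ l₂ h₁ h₂).E =>
        (figEight l₁ l₂ h₁ h₂).src e = v), g e) = g true + g false := by
    intro g v
    have : (Finset.univ.filter (fun e : (figEight l₁ l₂ h₁ h₂).E =>
        (figEight l₁ l₂ h₁ h₂).src e = v)) = (Finset.univ : Finset Bool) := by
      apply Finset.filter_true_of_mem
      intro e _
      rfl
    rw [this]
    exact Fintype.sum_bool g
  have hsum' : ∀ (g : Bool → ℝ) (v : Unit),
      (∑ e ∈ Finset.univ.filter (fun e : (figEight l₁ l₂ h₁ h₂).E =>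
        (figEight l₁ l₂ h₁ h₂).tgt e = v), g e) = g true + g false := by
    intro g v
    have : (Finset.univ.filter (fun e : (figEight l₁ l₂ h₁ h₂).E =>
        (figEight l₁ l₂ h₁ h₂).tgt e = v)) = (Finset.univ : Finset Bool) := by
      apply Finset.filter_true_of_mem
      intro e _
      rfl
    rw [this]
    exact Fintype.sum_bool g
  have hl1 : (figEight l₁ l₂ h₁ h₂).len true = l₁ := by simp [figEight]
  have hl2 : (figEight l₁ l₂ h₁ h₂).len false = l₂ := by simp [figEight]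
  constructor
  · rintro ⟨hf, ⟨φ, hφ⟩, hk⟩
    refine ⟨hf, ?_, ?_⟩
    · have h1 := hφ true
      have h2 := hφ false
      rw [hl1] at h1
      rw [hl2] at h2
      exact ⟨h1.1.trans h2.1.symm, h1.2.trans h1.1.symm, h2.2.trans h2.1.symm⟩
    · have := hk ()
      rw [hsum (fun e => deriv (f e) 0) (),
        hsum' (fun e => deriv (f e) ((figEight l₁ l₂ h₁ h₂).len e)) ()] at this
      rw [hl1, hl2] at this
      exact this
  · rintro ⟨hf, ⟨ha, hb, hc⟩, hk⟩
    refine ⟨hf, ⟨fun _ => f true 0, fun e => ?_⟩, fun v => ?_⟩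
    · cases e
      · rw [hl2]
        exact ⟨ha.symm, hc.trans ha.symm⟩
      · rw [hl1]
        exact ⟨rfl, hb⟩
    · rw [hsum (fun e => deriv (f e) 0) v,
        hsum' (fun e => deriv (f e) ((figEight l₁ l₂ h₁ h₂).len e)) v]
      rw [hl1, hl2]
      exact hk

/-- the functions given by the data at `0` -/
noncomputable def fn (μ a₁ b₁ a₂ b₂ : ℝ) : Bool → ℝ → ℝ := fun e =>
  if e then sol μ a₁ b₁ else sol μ a₂ b₂

theorem fn_true (μ a₁ b₁ a₂ b₂ : ℝ) : fn μ a₁ b₁ a₂ b₂ true = sol μ a₁ b₁ := by simp [fn]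

theorem fn_false (μ a₁ b₁ a₂ b₂ : ℝ) : fn μ a₁ b₁ a₂ b₂ false = sol μ a₂ b₂ := by simp [fn]

/-- Every eigenfunction is given by its data. -/
theorem eq_fn {μ : ℝ} (hμ : μ ≠ 0) {f : (figEight l₁ l₂ h₁ h₂).E → ℝ → ℝ}
    (hf : f ∈ Eig (figEight l₁ l₂ h₁ h₂) μ) :
    f = fn μ (f true 0) (deriv (f true) 0 / μ) (f false 0) (deriv (f false) 0 / μ) := by
  have h := ((mem_iff h₁ h₂).1 hf).1
  funext e x
  cases e
  · rw [fn_false]
    exact (ode_sol hμ (h false).1 (h false).2.1 (h false).2.2 x).1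
  · rw [fn_true]
    exact (ode_sol hμ (h true).1 (h true).2.1 (h true).2.2 x).1

/-- The conditions at the vertex in terms of the data. -/
theorem fn_mem {μ : ℝ} (hμ : μ ≠ 0) (a₁ b₁ a₂ b₂ : ℝ) :
    (fn μ a₁ b₁ a₂ b₂ : (figEight l₁ l₂ h₁ h₂).E → ℝ → ℝ) ∈ Eig (figEight l₁ l₂ h₁ h₂) μ ↔
      a₁ = a₂ ∧
      Real.sin (μ * l₁ / 2) * (b₁ * Real.cos (μ * l₁ / 2) - a₁ * Real.sin (μ * l₁ / 2)) = 0 ∧
      Real.sin (μ * l₂ / 2) * (b₂ * Real.cos (μ * l₂ / 2) - a₂ * Real.sin (μ * l₂ / 2)) = 0 ∧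
      Real.sin (μ * l₁ / 2) * (b₁ * Real.sin (μ * l₁ / 2) + a₁ * Real.cos (μ * l₁ / 2)) +
      Real.sin (μ * l₂ / 2) * (b₂ * Real.sin (μ * l₂ / 2) + a₂ * Real.cos (μ * l₂ / 2)) = 0 := by
  refine (mem_iff h₁ h₂).trans ?_
  have e1 : ∀ l : ℝ, Real.cos (μ * l) = 1 - 2 * Real.sin (μ * l / 2) ^ 2 := by
    intro l
    have h := Real.cos_two_mul (μ * l / 2)
    have h' := Real.sin_sq_add_cos_sq (μ * l / 2)
    rw [show 2 * (μ * l / 2) = μ * l by ring] at h
    rw [h]
    linarith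
  have e2 : ∀ l : ℝ, Real.sin (μ * l) = 2 * Real.sin (μ * l / 2) * Real.cos (μ * l / 2) := by
    intro l
    have h := Real.sin_two_mul (μ * l / 2)
    rw [show 2 * (μ * l / 2) = μ * l by ring] at h
    exact h
  rw [fn_true, fn_false, deriv_sol, deriv_sol]
  simp only [sol, mul_zero, Real.cos_zero, Real.sin_zero, mul_one, add_zero, e1, e2]
  constructor
  · rintro ⟨-, ⟨ha, hb, hc⟩, hk⟩
    refine ⟨ha, by linarith, by linarith, ?_⟩
    have : 2 * μ * (Real.sin (μ * l₁ / 2) *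
        (b₁ * Real.sin (μ * l₁ / 2) + a₁ * Real.cos (μ * l₁ / 2)) +
        Real.sin (μ * l₂ / 2) *
        (b₂ * Real.sin (μ * l₂ / 2) + a₂ * Real.cos (μ * l₂ / 2))) = 0 := by
      linear_combination hk
    rcases mul_eq_zero.1 this with h | h
    · exfalso
      apply hμ
      linarith
    · exact h
  · rintro ⟨ha, hb, hc, hk⟩
    refine ⟨?_, ⟨ha, by linarith, by linarith⟩, by linear_combination (2 * μ) * hk⟩
    intro e
    cases e
    · have : fn μ a₁ b₁ a₂ b₂ false = sol μ a₂ b₂ := fn_false _ _ _ _ _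
      rw [this]
      exact sol_smooth _ _ _
    · have : fn μ a₁ b₁ a₂ b₂ true = sol μ a₁ b₁ := fn_true _ _ _ _ _
      rw [this]
      exact sol_smooth _ _ _

end Pool.Agent.Q177.FE
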