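import Pool.Agent.Q177.FE.Fig

/-!
# The spectrum of the figure eight with rationally independent lengths
-/

open Set Filter Topology MeasureTheory
open scoped Classical

set_option autoImplicit false

namespace Pool.Agent.Q177.FE

variable {l₁ l₂ : ℝ} (h₁ : 0 < l₁) (h₂ : 0 < l₂)

/-- `sin (μ l₁ / 2)` and `sin (μ l₂ / 2)` do not vanish both. -/
theorem not_both_sin (hi : Irrational (l₁ / l₂)) (h₂ : 0 < l₂) {μ : ℝ} (hμ : μ ≠ 0)
    (ha : Real.sin (μ * l₁ / 2) = 0) (hb : Real.sin (μ * l₂ / 2) = 0) : False := by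
  obtain ⟨m, hm⟩ := Real.sin_eq_zero_iff.1 ha
  obtain ⟨n, hn⟩ := Real.sin_eq_zero_iff.1 hb
  have hn0 : (n : ℝ) * Real.pi ≠ 0 := by
    rw [hn]
    have : μ * l₂ ≠ 0 := mul_ne_zero hμ h₂.ne'
    intro h
    apply this
    linarith
  have hn1 : (n : ℝ) ≠ 0 := fun h => hn0 (by rw [h, zero_mul])
  apply hi
  refine ⟨(m : ℚ) / n, ?_⟩
  push_cast
  rw [div_eq_div_iff hn1 h₂.ne']
  have hp := Real.pi_ne_zero
  have h3 : μ * Real.pi ≠ 0 := mul_ne_zero hμ hp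
  apply mul_left_cancel₀ h3
  have e1 : μ * l₂ = 2 * (n * Real.pi) := by linarith
  have e2 : μ * l₁ = 2 * (m * Real.pi) := by linarith
  linear_combination (m * Real.pi) * e1 - (n * Real.pi) * e2

theorem not_both_cos (hi : Irrational (l₁ / l₂)) (h₂ : 0 < l₂) {μ : ℝ} (hμ : μ ≠ 0)
    (ha : Real.cos (μ * l₁ / 2) = 0) (hb : Real.cos (μ * l₂ / 2) = 0) : False := by
  have h2 : 2 * μ ≠ 0 := mul_ne_zero two_ne_zero hμ
  apply not_both_sin hi h₂ h2
  · rw [show 2 * μ * l₁ / 2 = 2 * (μ * l₁ / 2) by ring, Real.sin_two_mul, ha, mul_zero]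
  · rw [show 2 * μ * l₂ / 2 = 2 * (μ * l₂ / 2) by ring, Real.sin_two_mul, hb, mul_zero]

/-- The spectral condition. -/
def InSpec (l₁ l₂ μ : ℝ) : Prop :=
  Real.sin (μ * l₁ / 2) = 0 ∨ Real.sin (μ * l₂ / 2) = 0 ∨
    Real.sin (μ * (l₁ + l₂) / 2) = 0

theorem sin_add_eq (μ : ℝ) : Real.sin (μ * (l₁ + l₂) / 2) =
    Real.sin (μ * l₁ / 2) * Real.cos (μ * l₂ / 2) +
      Real.cos (μ * l₁ / 2) * Real.sin (μ * l₂ / 2) := by
  rw [← Real.sin_add]
  congr 1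
  ring

/-- Outside the spectrum there are no eigenfunctions. -/
theorem eig_bot {μ : ℝ} (hμ : μ ≠ 0) (h : ¬ InSpec l₁ l₂ μ) :
    Eig (figEight l₁ l₂ h₁ h₂) μ = ⊥ := by
  rw [Submodule.eq_bot_iff]
  intro f hf
  have h0 := eq_fn h₁ h₂ hμ hf
  rw [h0] at hf ⊢
  generalize f true 0 = a₁ at *
  generalize deriv (f true) 0 / μ = b₁ at *
  generalize f false 0 = a₂ at *
  generalize deriv (f false) 0 / μ = b₂ at *
  have hm := (fn_mem h₁ h₂ hμ a₁ b₁ a₂ b₂).1 hf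
  unfold InSpec at h
  push Not at h
  obtain ⟨hs1, hs2, hs⟩ := h
  rw [sin_add_eq] at hs
  obtain ⟨rfl, hb, hc, hk⟩ := hm
  have hb' := (mul_eq_zero.1 hb).resolve_left hs1
  have hc' := (mul_eq_zero.1 hc).resolve_left hs2
  have ht1 := Real.sin_sq_add_cos_sq (μ * l₁ / 2)
  have ht2 := Real.sin_sq_add_cos_sq (μ * l₂ / 2)
  generalize Real.sin (μ * l₁ / 2) = s₁ at *
  generalize Real.cos (μ * l₁ / 2) = c₁ at *
  generalize Real.sin (μ * l₂ / 2) = s₂ at *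
  generalize Real.cos (μ * l₂ / 2) = c₂ at *
  have ha : a₁ = 0 := by
    have : a₁ * (s₁ * c₂ + c₁ * s₂) = 0 := by
      linear_combination (-(a₁ * s₁ * c₂)) * ht1 - (a₁ * c₁ * s₂) * ht2 + (c₁ * c₂) * hk -
        (s₁ ^ 2 * c₂) * hb' - (s₂ ^ 2 * c₁) * hc'
    exact (mul_eq_zero.1 this).resolve_right hs
  subst ha
  simp only [zero_mul, sub_zero, add_zero] at hb' hc' hk
  have hb0 : b₁ = 0 ∧ b₂ = 0 := by
    by_cases hc1 : c₁ = 0
    · have hc2 : c₂ ≠ 0 := by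
        rintro rfl
        apply hs
        rw [hc1]
        ring
      have hb2 : b₂ = 0 := (mul_eq_zero.1 hc').resolve_right hc2
      refine ⟨?_, hb2⟩
      rw [hb2] at hk
      have : s₁ * s₁ * b₁ = 0 := by linarith
      exact (mul_eq_zero.1 this).resolve_left (mul_ne_zero hs1 hs1)
    · have hb1 : b₁ = 0 := (mul_eq_zero.1 hb').resolve_right hc1
      refine ⟨hb1, ?_⟩
      rw [hb1] at hk
      have : s₂ * s₂ * b₂ = 0 := by linarith
      exact (mul_eq_zero.1 this).resolve_left (mul_ne_zero hs2 hs2)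
  rw [hb0.1, hb0.2]
  funext e x
  cases e
  · have := fn_false μ 0 0 0 0
    change fn μ 0 0 0 0 false x = 0
    rw [this]
    simp [sol]
  · have := fn_true μ 0 0 0 0
    change fn μ 0 0 0 0 true x = 0
    rw [this]
    simp [sol]

theorem smul_fn (c μ a₁ b₁ a₂ b₂ : ℝ) :
    c • (fn μ a₁ b₁ a₂ b₂) = fn μ (c * a₁) (c * b₁) (c * a₂) (c * b₂) := by
  funext e x
  cases e
  · change c * fn μ a₁ b₁ a₂ b₂ false x = fn μ (c * a₁) (c * b₁) (c * a₂) (c * b₂) false x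
    rw [fn_false, fn_false]
    simp only [sol]
    ring
  · change c * fn μ a₁ b₁ a₂ b₂ true x = fn μ (c * a₁) (c * b₁) (c * a₂) (c * b₂) true x
    rw [fn_true, fn_true]
    simp only [sol]
    ring

theorem fn_ne {μ a₁ b₁ a₂ b₂ : ℝ} (hμ : μ ≠ 0) (h : a₁ ≠ 0 ∨ b₁ ≠ 0 ∨ a₂ ≠ 0 ∨ b₂ ≠ 0) :
    fn μ a₁ b₁ a₂ b₂ ≠ 0 := by
  intro h0
  have h1 : sol μ a₁ b₁ = 0 := by rw [← fn_true μ a₁ b₁ a₂ b₂, h0]; rfl
  have h2 : sol μ a₂ b₂ = 0 := by rw [← fn_false μ a₁ b₁ a₂ b₂, h0]; rfl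
  have key : ∀ a b : ℝ, sol μ a b = 0 → a = 0 ∧ b = 0 := by
    intro a b hab
    have e1 := congrFun hab 0
    have e2 := congrFun hab (Real.pi / (2 * μ))
    simp only [sol, mul_zero, Real.cos_zero, Real.sin_zero, mul_one, add_zero,
      Pi.zero_apply] at e1
    refine ⟨e1, ?_⟩
    have e3 : μ * (Real.pi / (2 * μ)) = Real.pi / 2 := by field_simp
    simp only [sol, e3, Real.cos_pi_div_two, Real.sin_pi_div_two, mul_zero, mul_one, zero_add,
      Pi.zero_apply] at e2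
    exact e2
  have k1 := key _ _ h1
  have k2 := key _ _ h2
  rcases h with h | h | h | h
  · exact h k1.1
  · exact h k1.2
  · exact h k2.1
  · exact h k2.2

/-- If every member is a multiple of a nonzero member, the dimension is one. -/
theorem finrank_one {M : Type} [AddCommGroup M] [Module ℝ M] (W : Submodule ℝ M) (w : M)
    (hw : w ∈ W) (h0 : w ≠ 0) (h : ∀ f ∈ W, ∃ c : ℝ, f = c • w) :
    Module.finrank ℝ W = 1 ∧ Module.Finite ℝ W := by
  have : Module.finrank ℝ W = 1 := by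
    rw [finrank_eq_one_iff']
    refine ⟨⟨w, hw⟩, ?_, ?_⟩
    · intro h
      exact h0 (congrArg Subtype.val h)
    · rintro ⟨f, hf⟩
      obtain ⟨c, hc⟩ := h f hf
      exact ⟨c, Subtype.ext hc.symm⟩
  exact ⟨this, Module.finite_of_finrank_pos (by rw [this]; exact one_pos)⟩

/-- The eigenfunctions which live on the first loop. -/
theorem eig_loop₁ (hi : Irrational (l₁ / l₂)) {μ : ℝ} (hμ : μ ≠ 0)
    (hs : Real.sin (μ * l₁ / 2) = 0) :
    (fn μ 0 1 0 0 : (figEight l₁ l₂ h₁ h₂).E → ℝ → ℝ) ∈ Eig (figEight l₁ l₂ h₁ h₂) μ ∧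
      ∀ f ∈ Eig (figEight l₁ l₂ h₁ h₂) μ, ∃ c : ℝ, f = c • fn μ 0 1 0 0 := by
  constructor
  · rw [fn_mem h₁ h₂ hμ]
    simp [hs]
  · intro f hf
    have h0 := eq_fn h₁ h₂ hμ hf
    rw [h0] at hf ⊢
    generalize f true 0 = a₁ at *
    generalize deriv (f true) 0 / μ = b₁ at *
    generalize f false 0 = a₂ at *
    generalize deriv (f false) 0 / μ = b₂ at *
    obtain ⟨rfl, hb, hc, hk⟩ := (fn_mem h₁ h₂ hμ a₁ b₁ a₂ b₂).1 hf
    have hs2 : Real.sin (μ * l₂ / 2) ≠ 0 := fun h => not_both_sin hi h₂ hμ hs h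
    rw [hs, zero_mul, zero_add] at hk
    have hk' := (mul_eq_zero.1 hk).resolve_left hs2
    have hc' := (mul_eq_zero.1 hc).resolve_left hs2
    have ht2 := Real.sin_sq_add_cos_sq (μ * l₂ / 2)
    generalize Real.sin (μ * l₂ / 2) = s₂ at *
    generalize Real.cos (μ * l₂ / 2) = c₂ at *
    have ha : a₁ = 0 := by
      linear_combination (-a₁) * ht2 + c₂ * hk' - s₂ * hc'
    have hb2 : b₂ = 0 := by
      linear_combination (-b₂) * ht2 + s₂ * hk' + c₂ * hc'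
    refine ⟨b₁, ?_⟩
    rw [ha, hb2]
    have := smul_fn b₁ μ 0 1 0 0
    rw [mul_zero, mul_one] at this
    exact this.symm

/-- The eigenfunctions which live on the second loop. -/
theorem eig_loop₂ (hi : Irrational (l₁ / l₂)) {μ : ℝ} (hμ : μ ≠ 0)
    (hs : Real.sin (μ * l₂ / 2) = 0) :
    (fn μ 0 0 0 1 : (figEight l₁ l₂ h₁ h₂).E → ℝ → ℝ) ∈ Eig (figEight l₁ l₂ h₁ h₂) μ ∧
      ∀ f ∈ Eig (figEight l₁ l₂ h₁ h₂) μ, ∃ c : ℝ, f = c • fn μ 0 0 0 1 := by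
  constructor
  · rw [fn_mem h₁ h₂ hμ]
    simp [hs]
  · intro f hf
    have h0 := eq_fn h₁ h₂ hμ hf
    rw [h0] at hf ⊢
    generalize f true 0 = a₁ at *
    generalize deriv (f true) 0 / μ = b₁ at *
    generalize f false 0 = a₂ at *
    generalize deriv (f false) 0 / μ = b₂ at *
    obtain ⟨rfl, hb, hc, hk⟩ := (fn_mem h₁ h₂ hμ a₁ b₁ a₂ b₂).1 hf
    have hs1 : Real.sin (μ * l₁ / 2) ≠ 0 := fun h => not_both_sin hi h₂ hμ h hs
    rw [hs, zero_mul, add_zero] at hk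
    have hk' := (mul_eq_zero.1 hk).resolve_left hs1
    have hb' := (mul_eq_zero.1 hb).resolve_left hs1
    have ht1 := Real.sin_sq_add_cos_sq (μ * l₁ / 2)
    generalize Real.sin (μ * l₁ / 2) = s₁ at *
    generalize Real.cos (μ * l₁ / 2) = c₁ at *
    have ha : a₁ = 0 := by
      linear_combination (-a₁) * ht1 + c₁ * hk' - s₁ * hb'
    have hb1 : b₁ = 0 := by
      linear_combination (-b₁) * ht1 + s₁ * hk' + c₁ * hb'
    refine ⟨b₂, ?_⟩
    rw [ha, hb1]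
    have := smul_fn b₂ μ 0 0 0 1
    rw [mul_zero, mul_one] at this
    exact this.symm

/-- The symmetric eigenfunctions. -/
theorem eig_sym (hi : Irrational (l₁ / l₂)) {μ : ℝ} (hμ : μ ≠ 0)
    (hs : Real.sin (μ * (l₁ + l₂) / 2) = 0) :
    Real.sin (μ * l₁ / 2) ≠ 0 ∧ Real.sin (μ * l₂ / 2) ≠ 0 ∧
    Real.cos (μ * l₁ / 2) ≠ 0 ∧ Real.cos (μ * l₂ / 2) ≠ 0 ∧
    (fn μ 1 (Real.sin (μ * l₁ / 2) / Real.cos (μ * l₁ / 2)) 1
      (Real.sin (μ * l₂ / 2) / Real.cos (μ * l₂ / 2)) :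
      (figEight l₁ l₂ h₁ h₂).E → ℝ → ℝ) ∈ Eig (figEight l₁ l₂ h₁ h₂) μ ∧
      ∀ f ∈ Eig (figEight l₁ l₂ h₁ h₂) μ, ∃ c : ℝ,
        f = c • fn μ 1 (Real.sin (μ * l₁ / 2) / Real.cos (μ * l₁ / 2)) 1
          (Real.sin (μ * l₂ / 2) / Real.cos (μ * l₂ / 2)) := by
  rw [sin_add_eq] at hs
  have ht1 := Real.sin_sq_add_cos_sq (μ * l₁ / 2)
  have ht2 := Real.sin_sq_add_cos_sq (μ * l₂ / 2)
  have hS : ¬ (Real.sin (μ * l₁ / 2) = 0 ∧ Real.sin (μ * l₂ / 2) = 0) :=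
    fun h => not_both_sin hi h₂ hμ h.1 h.2
  have hC : ¬ (Real.cos (μ * l₁ / 2) = 0 ∧ Real.cos (μ * l₂ / 2) = 0) :=
    fun h => not_both_cos hi h₂ hμ h.1 h.2
  have hs1 : Real.sin (μ * l₁ / 2) ≠ 0 := by
    intro h
    rw [h] at hs ht1
    rw [zero_mul, zero_add] at hs
    rcases mul_eq_zero.1 hs with h' | h'
    · rw [h'] at ht1
      norm_num at ht1
    · exact hS ⟨h, h'⟩
  have hs2 : Real.sin (μ * l₂ / 2) ≠ 0 := by
    intro h
    rw [h] at hs ht2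
    rw [mul_zero, add_zero] at hs
    rcases mul_eq_zero.1 hs with h' | h'
    · exact hs1 h'
    · rw [h'] at ht2
      norm_num at ht2
  have hc1 : Real.cos (μ * l₁ / 2) ≠ 0 := by
    intro h
    rw [h] at hs
    rw [zero_mul, add_zero] at hs
    rcases mul_eq_zero.1 hs with h' | h'
    · exact hs1 h'
    · exact hC ⟨h, h'⟩
  have hc2 : Real.cos (μ * l₂ / 2) ≠ 0 := by
    intro h
    rw [h] at hs
    rw [mul_zero, zero_add] at hs
    rcases mul_eq_zero.1 hs with h' | h'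
    · exact hc1 h'
    · exact hs2 h'
  refine ⟨hs1, hs2, hc1, hc2, ?_, ?_⟩
  · rw [fn_mem h₁ h₂ hμ]
    refine ⟨rfl, ?_, ?_, ?_⟩
    · rw [div_mul_cancel₀ _ hc1]
      ring
    · rw [div_mul_cancel₀ _ hc2]
      ring
    · field_simp
      linear_combination (Real.sin (μ * l₁ / 2) * Real.cos (μ * l₂ / 2)) * ht1 +
        (Real.sin (μ * l₂ / 2) * Real.cos (μ * l₁ / 2)) * ht2 + hs
  · intro f hf
    have h0 := eq_fn h₁ h₂ hμ hf
    rw [h0] at hf ⊢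
    generalize f true 0 = a₁ at *
    generalize deriv (f true) 0 / μ = b₁ at *
    generalize f false 0 = a₂ at *
    generalize deriv (f false) 0 / μ = b₂ at *
    obtain ⟨rfl, hb, hc, hk⟩ := (fn_mem h₁ h₂ hμ a₁ b₁ a₂ b₂).1 hf
    have hb' := (mul_eq_zero.1 hb).resolve_left hs1
    have hc' := (mul_eq_zero.1 hc).resolve_left hs2
    refine ⟨a₁, ?_⟩
    have hb1 : b₁ = a₁ * (Real.sin (μ * l₁ / 2) / Real.cos (μ * l₁ / 2)) := by
      field_simp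
      linarith
    have hb2 : b₂ = a₁ * (Real.sin (μ * l₂ / 2) / Real.cos (μ * l₂ / 2)) := by
      field_simp
      linarith
    rw [smul_fn, ← hb1, ← hb2, mul_one]

end Pool.Agent.Q177.FE
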